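import Pool.Agent.BNSD.Hom
import Pool.Agent.BNSD.Poly
import Pool.Agent.BNSD.TwoRays

set_option autoImplicit false

namespace Pool.Agent.Results.MP_34aa08_al.MarkedPolytopeDescent

open Pool.Agent.BNSD

universe u v

/-- `H_1(G;ℝ)` is the dual of the real vector space `H^1(G;ℝ)` of the homomorphisms `G → ℝ`; the
class of `g ∈ G` in it, that is `φ ↦ φ g`. -/
def cls {G : Type u} [Group G] (g : G) : Module.Dual ℝ (Additive G →+ ℝ) where
  toFun φ := φ (Additive.ofMul g)
  map_add' _ _ := rfl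
  map_smul' _ _ := rfl

/-- `[φ] ∈ Σ(G)`: the full subgraph on `{g : φ g ≥ 0}` of the Cayley graph of `G` with respect to
`X` is connected. -/
def InSigma {G : Type u} [Group G] (X : Set G) (φ : Additive G →+ ℝ) : Prop :=
  ((SimpleGraph.fromRel fun a b : G => ∃ x ∈ X, a * x = b).induce
    {g : G | 0 ≤ φ (Additive.ofMul g)}).Connected

/-- There is an integral marked polytope in `H_1(G;ℝ)` (the convex hull of the finite nonempty set
`S`, its vertices are classes of elements of `G`, `V` is the set of the marked ones) such that, for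
every `φ ≠ 0`, `[φ] ∈ Σ(G)` if and only if `φ` pairs maximally with a marked vertex. -/
def HasMarkedPolytope {G : Type u} [Group G] (X : Set G) : Prop :=
  ∃ S V : Set (Module.Dual ℝ (Additive G →+ ℝ)), S.Finite ∧ S.Nonempty ∧
    V ⊆ (convexHull ℝ S).extremePoints ℝ ∧
    (∀ v ∈ (convexHull ℝ S).extremePoints ℝ, ∃ g : G, v = cls g) ∧
    ∀ φ : Additive G →+ ℝ, φ ≠ 0 →
      (InSigma X φ ↔
        ∃ v ∈ V, ∀ w ∈ (convexHull ℝ S).extremePoints ℝ, w ≠ v → w φ < v φ)

lemma reach_of_J {G : Type u} [Group G] {X : Set G} {φ : Additive G →+ ℝ} {a b : G}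
    (ha : 0 ≤ φ (Additive.ofMul a)) (hb : 0 ≤ φ (Additive.ofMul b))
    (h : J X (fun g => φ (Additive.ofMul g)) 0 a b) :
    ((SimpleGraph.fromRel fun a b : G => ∃ x ∈ X, a * x = b).induce
      {g : G | 0 ≤ φ (Additive.ofMul g)}).Reachable ⟨a, ha⟩ ⟨b, hb⟩ := by
  induction h with
  | refl => exact SimpleGraph.Reachable.refl _
  | tail _ h2 ih =>
    rename_i c d _
    obtain ⟨⟨x, hx, h3⟩, h4, h5⟩ := h2
    refine (ih h4).trans ?_
    by_cases hcd : c = d
    · subst hcd; exact SimpleGraph.Reachable.refl _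
    · refine SimpleGraph.Adj.reachable ?_
      rw [SimpleGraph.comap_adj, SimpleGraph.fromRel_adj]
      refine ⟨hcd, ?_⟩
      rcases h3 with h3 | h3
      · exact Or.inl ⟨x, hx, h3⟩
      · exact Or.inr ⟨x, hx, h3⟩

lemma J_of_reach {G : Type u} [Group G] {X : Set G} {φ : Additive G →+ ℝ}
    {a b : {g : G | 0 ≤ φ (Additive.ofMul g)}}
    (h : ((SimpleGraph.fromRel fun a b : G => ∃ x ∈ X, a * x = b).induce
      {g : G | 0 ≤ φ (Additive.ofMul g)}).Reachable a b) :
    J X (fun g => φ (Additive.ofMul g)) 0 a b := by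
  rw [SimpleGraph.reachable_iff_reflTransGen] at h
  induction h with
  | refl => exact J.refl' _ _ _ _
  | tail _ h2 ih =>
    rename_i c d _
    rw [SimpleGraph.comap_adj, SimpleGraph.fromRel_adj] at h2
    obtain ⟨-, h3⟩ := h2
    refine Relation.ReflTransGen.tail ih ⟨?_, c.2, d.2⟩
    rcases h3 with ⟨x, hx, h3⟩ | ⟨x, hx, h3⟩
    · exact ⟨x, hx, Or.inl h3⟩
    · exact ⟨x, hx, Or.inr h3⟩

lemma inSigma_iff {G : Type u} [Group G] {X : Set G} {φ : Additive G →+ ℝ} :
    InSigma X φ ↔ ∀ g : G, 0 ≤ φ (Additive.ofMul g) →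
      J X (fun g => φ (Additive.ofMul g)) 0 1 g := by
  constructor
  · intro h g hg
    exact J_of_reach (a := ⟨1, by simp⟩) (b := ⟨g, hg⟩) (h.preconnected _ _)
  · intro h
    have : Nonempty {g : G | 0 ≤ φ (Additive.ofMul g)} := ⟨⟨1, by simp⟩⟩
    refine ⟨?_⟩
    rintro ⟨a, ha⟩ ⟨b, hb⟩
    exact reach_of_J ha hb ((h a ha).sy.tr (h b hb))

lemma additive {G : Type u} [Group G] (φ : Additive G →+ ℝ) (a b : G) :
    φ (Additive.ofMul (a * b)) = φ (Additive.ofMul a) + φ (Additive.ofMul b) := by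
  rw [ofMul_mul, map_add]

lemma exists_ne_of_ne {G : Type u} [Group G] {φ : Additive G →+ ℝ} (h : φ ≠ 0) :
    ∃ g : G, φ (Additive.ofMul g) ≠ 0 := by
  by_contra hcon
  push Not at hcon
  exact h (AddMonoidHom.ext fun a => hcon a.toMul)

lemma build {G : Type u} [Group G] (X : Set G)
    (S M : Set (Module.Dual ℝ (Additive G →+ ℝ))) (hS : S.Finite) (hne : S.Nonempty)
    (hM : M ⊆ S) (hint : ∀ v ∈ S, ∃ g : G, v = cls g)
    (h : ∀ φ : Additive G →+ ℝ, φ ≠ 0 →
      (InSigma X φ ↔ ∃ v ∈ M, ∀ w ∈ S, w ≠ v → w φ < v φ)) : HasMarkedPolytope X := by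
  refine ⟨S, M ∩ (convexHull ℝ S).extremePoints ℝ, hS, hne, Set.inter_subset_right,
    fun v hv => hint v (extremePoints_convexHull_subset hv), ?_⟩
  intro φ hφ
  rw [h φ hφ]
  have := ext_iff hS M hM (Module.Dual.eval ℝ (Additive G →+ ℝ) φ)
  simp only [Module.Dual.eval_apply] at this
  exact this.symm

/-- (1) Let `i : K → G` be a homomorphism of finitely generated groups with finitely generated
kernel whose image has finite index. If `Σ(K)` is determined by an integral marked polytope, then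
so is `Σ(G)`. (2) If all homomorphisms from `G` to the reals are multiples of one of them, then
`Σ(G)` is determined by an integral marked polytope. (3) If `Σ(G)` contains all points of the
segments from `φ` to `ψ` and from `ψ` to `-φ` (which do not contain `0`), but not all `χ ≠ 0`, then
no integral marked polytope determines `Σ(G)`. -/
theorem result :
    (∀ (K : Type u) (G : Type v) [Group K] [Group G] (i : K →* G) (Z : Set K) (X : Set G),
      i.ker.FG → i.range.FiniteIndex → Z.Finite → Subgroup.closure Z = ⊤ → X.Finite →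
      Subgroup.closure X = ⊤ → HasMarkedPolytope Z → HasMarkedPolytope X) ∧
    (∀ (G : Type v) [Group G] (X : Set G), X.Finite → Subgroup.closure X = ⊤ →
      (∃ φ₀ : Additive G →+ ℝ, ∀ φ : Additive G →+ ℝ, ∃ c : ℝ, φ = c • φ₀) →
        HasMarkedPolytope X) ∧
    (∀ (G : Type v) [Group G] (X : Set G) (φ ψ χ : Additive G →+ ℝ),
      (∀ θ ∈ segment ℝ φ ψ ∪ segment ℝ ψ (-φ), θ ≠ 0 ∧ InSigma X θ) →
      χ ≠ 0 → ¬ InSigma X χ → ¬ HasMarkedPolytope X) := by
  refine ⟨?_, ?_, ?_⟩
  · intro K G _ _ i Z X hker hidx hZf hZ hXf hX ⟨S, V, hS, hne, hV, hint, h⟩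
    classical
    -- the restriction and its dual
    let res : (Additive G →+ ℝ) →ₗ[ℝ] (Additive K →+ ℝ) :=
      { toFun := fun φ => φ.comp (MonoidHom.toAdditive i)
        map_add' := fun _ _ => rfl
        map_smul' := fun _ _ => rfl }
    let pi : Module.Dual ℝ (Additive K →+ ℝ) → Module.Dual ℝ (Additive G →+ ℝ) :=
      fun v => v ∘ₗ res
    have hpi : ∀ v φ, pi v φ = v (res φ) := fun _ _ => rfl
    have hsig : ∀ φ : Additive G →+ ℝ, φ ≠ 0 → (InSigma X φ ↔ InSigma Z (res φ)) := by
      intro φ hφ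
      rw [inSigma_iff, inSigma_iff]
      have h0 := exists_ne i (f := fun g => φ (Additive.ofMul g)) (additive φ)
        (exists_ne_of_ne hφ)
      exact (hom_iff i hker hX hXf hZ hZf (f := fun g => φ (Additive.ofMul g)) (additive φ)
        h0).symm
    have hres : ∀ φ : Additive G →+ ℝ, φ ≠ 0 → res φ ≠ 0 := by
      intro φ hφ hcon
      obtain ⟨k, hk⟩ := exists_ne i (f := fun g => φ (Additive.ofMul g)) (additive φ)
        (exists_ne_of_ne hφ)
      exact hk (by
        have := congrArg (fun ψ : Additive K →+ ℝ => ψ (Additive.ofMul k)) hcon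
        simpa [res] using this)
    set E := (convexHull ℝ S).extremePoints ℝ with hE
    have hES : E ⊆ S := extremePoints_convexHull_subset
    have hEf : E.Finite := hS.subset hES
    have hEne : E.Nonempty := by
      by_contra hcon
      rw [Set.not_nonempty_iff_eq_empty] at hcon
      obtain ⟨s, hs⟩ := hne
      have h1 := subset_hull_ext hS.toFinset
      rw [hS.coe_toFinset, ← hE, hcon, convexHull_empty] at h1
      exact h1 hs
    refine build X (pi '' E) {v | ∃ u ∈ V, v = pi u ∧ ∀ u' ∈ E, pi u' = v → u' = u}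
      (hEf.image _) (hEne.image _) ?_ ?_ ?_
    · rintro v ⟨u, hu, rfl, -⟩
      exact ⟨u, hV hu, rfl⟩
    · rintro v ⟨u, hu, rfl⟩
      obtain ⟨k, rfl⟩ := hint u hu
      exact ⟨i k, rfl⟩
    · intro φ hφ
      rw [hsig φ hφ, h (res φ) (hres φ hφ)]
      constructor
      · rintro ⟨u, hu, hmax⟩
        refine ⟨pi u, ⟨u, hu, rfl, ?_⟩, ?_⟩
        · intro u' hu' he
          by_contra hne'
          have h1 := hmax u' hu' hne'
          rw [← hpi, ← hpi, he] at h1
          exact lt_irrefl _ h1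
        · rintro w ⟨w', hw', rfl⟩ hwne
          exact hmax w' hw' fun he => hwne (by rw [he])
      · rintro ⟨v, ⟨u, hu, rfl, huniq⟩, hmax⟩
        refine ⟨u, hu, ?_⟩
        intro w hw hwu
        exact hmax (pi w) ⟨w, hw, rfl⟩ fun he => hwu (huniq w hw he)
  · intro G _ X _ _ ⟨φ₀, hφ₀⟩
    by_cases h0 : φ₀ = 0
    · refine build X {cls 1} ∅ (Set.finite_singleton _) (Set.singleton_nonempty _)
        (Set.empty_subset _) ?_ ?_
      · intro v hv
        exact ⟨1, hv⟩
      · intro φ hφ
        obtain ⟨c, hc⟩ := hφ₀ φ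
        exact absurd (by rw [hc, h0, smul_zero]) hφ
    · obtain ⟨g, hg⟩ : ∃ g : G, 0 < φ₀ (Additive.ofMul g) := by
        obtain ⟨g, hg⟩ := exists_ne_of_ne h0
        rcases lt_or_gt_of_ne hg with h | h
        · refine ⟨g⁻¹, ?_⟩
          rw [ofMul_inv, map_neg]; linarith
        · exact ⟨g, h⟩
      have hscale : ∀ (φ : Additive G →+ ℝ) (c : ℝ), 0 < c →
          (InSigma X (c • φ) ↔ InSigma X φ) := by
        intro φ c hc
        have : {g : G | 0 ≤ (c • φ) (Additive.ofMul g)} = {g : G | 0 ≤ φ (Additive.ofMul g)} := by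
          ext g
          simp only [Set.mem_ofPred_eq, AddMonoidHom.smul_apply, smul_eq_mul]
          constructor
          · intro h; exact nonneg_of_mul_nonneg_right (by linarith) hc
          · intro h; positivity
        unfold InSigma
        rw [this]
      have hneq : (cls g : Module.Dual ℝ (Additive G →+ ℝ)) ≠ cls 1 := by
        intro he
        have := congrArg (fun v : Module.Dual ℝ (Additive G →+ ℝ) => v φ₀) he
        simp [cls] at this
        linarith
      refine build X {cls 1, cls g}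
        {v | (v = cls g ∧ InSigma X φ₀) ∨ (v = cls 1 ∧ InSigma X (-φ₀))}
        (Set.toFinite _) (Set.insert_nonempty _ _) ?_ ?_ ?_
      · rintro v (⟨rfl, -⟩ | ⟨rfl, -⟩)
        · exact Or.inr rfl
        · exact Or.inl rfl
      · rintro v (rfl | rfl)
        · exact ⟨1, rfl⟩
        · exact ⟨g, rfl⟩
      · intro φ hφ
        obtain ⟨c, rfl⟩ := hφ₀ φ
        have hc : c ≠ 0 := by rintro rfl; exact hφ (zero_smul _ _)
        have e1 : (cls 1 : Module.Dual ℝ (Additive G →+ ℝ)) (c • φ₀) = 0 := by simp [cls]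
        have e2 : (cls g : Module.Dual ℝ (Additive G →+ ℝ)) (c • φ₀) =
            c * φ₀ (Additive.ofMul g) := rfl
        rcases lt_or_gt_of_ne hc with hc | hc
        · have hneg : c * φ₀ (Additive.ofMul g) < 0 := mul_neg_of_neg_of_pos hc hg
          have h1 : InSigma X (c • φ₀) ↔ InSigma X (-φ₀) := by
            have := hscale (-φ₀) (-c) (by linarith)
            rwa [smul_neg, neg_smul, neg_neg] at this
          rw [h1]
          constructor
          · intro h
            refine ⟨cls 1, Or.inr ⟨rfl, h⟩, ?_⟩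
            rintro w (rfl | rfl) hw
            · exact absurd rfl hw
            · rw [e1, e2]; exact hneg
          · rintro ⟨v, ⟨rfl, h⟩ | ⟨rfl, h⟩, hmax⟩
            · have := hmax (cls 1) (Or.inl rfl) hneq.symm
              rw [e1, e2] at this; linarith
            · exact h
        · have hpos : 0 < c * φ₀ (Additive.ofMul g) := mul_pos hc hg
          rw [hscale φ₀ c hc]
          constructor
          · intro h
            refine ⟨cls g, Or.inl ⟨rfl, h⟩, ?_⟩
            rintro w (rfl | rfl) hw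
            · rw [e1, e2]; exact hpos
            · exact absurd rfl hw
          · rintro ⟨v, ⟨rfl, h⟩ | ⟨rfl, h⟩, hmax⟩
            · exact h
            · have := hmax (cls g) (Or.inr rfl) hneq
              rw [e1, e2] at this; linarith
  · rintro G _ X φ ψ χ h12 hχ hχ' ⟨S, V, hS, -, hV, -, h⟩
    have h1 : ∀ t ∈ Set.Icc (0 : ℝ) 1,
        (1 - t) • φ + t • ψ ≠ 0 ∧ InSigma X ((1 - t) • φ + t • ψ) := fun t ht =>
      h12 _ (Or.inl ⟨1 - t, t, by linarith [ht.2], ht.1, by ring, rfl⟩)
    have h2 : ∀ t ∈ Set.Icc (0 : ℝ) 1,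
        (1 - t) • ψ + t • (-φ) ≠ 0 ∧ InSigma X ((1 - t) • ψ + t • (-φ)) := fun t ht =>
      h12 _ (Or.inr ⟨1 - t, t, by linarith [ht.2], ht.1, by ring, rfl⟩)
    have hT : ((convexHull ℝ S).extremePoints ℝ).Finite :=
      hS.subset extremePoints_convexHull_subset
    obtain ⟨v, hv⟩ := two_segments _ hT φ ψ
      (fun t ht => by
        obtain ⟨v, hv, hmax⟩ := (h _ (h1 t ht).1).1 (h1 t ht).2
        exact ⟨v, hV hv, hmax⟩)
      (fun t ht => by
        obtain ⟨v, hv, hmax⟩ := (h _ (h2 t ht).1).1 (h2 t ht).2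
        exact ⟨v, hV hv, hmax⟩)
    have h0 : (0 : ℝ) ∈ Set.Icc (0 : ℝ) 1 := ⟨le_rfl, zero_le_one⟩
    obtain ⟨u, hu, -⟩ := (h _ (h1 0 h0).1).1 (h1 0 h0).2
    refine hχ' ((h χ hχ).2 ⟨u, hu, ?_⟩)
    intro w hw hwu
    have hu' := hV hu
    rw [hv, Set.mem_singleton_iff] at hw hu'
    exact absurd (hw.trans hu'.symm) hwu

end Pool.Agent.Results.MP_34aa08_al.MarkedPolytopeDescent
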